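import Pool.Agent.Lib.MP_acafa7_al.F.IfaceG

/-! Module GROW (PaperF 2.6): growth of minimal maps. -/

namespace MSG.F38

open Classical

theorem dist_adj {V : Type} {G : SimpleGraph V} (hc : G.Connected) (q : V) {x y : V}
    (h : G.Adj x y) : G.dist q x ≤ G.dist q y + 1 := by
  have h1 : G.dist q x ≤ G.dist q y + G.dist y x := hc.dist_triangle
  have h2 : G.dist y x = 1 := SimpleGraph.dist_eq_one_iff_adj.mpr h.symm
  omega

/-- The counting part. -/
theorem count {V D : Type} [Fintype D] {G : SimpleGraph V} (hc : G.Connected) (M : PMap V D)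
    (R : List D) (hoff : M.Off3 {d | d ∈ R}) (hadj : ∀ d, G.Adj (M.f d) (M.f (M.ι d))) (q : V)
    (m : ℕ) :
    3 * (Finset.univ.filter (fun d : D => d ∉ R ∧ m + 1 ≤ G.dist q (M.f d) ∧
      m + 1 ≤ G.dist q (M.f (M.φ d)) ∧ ¬ m + 1 ≤ G.dist q (M.f (M.φ (M.φ d))))).card ≤
      Um G M R q (m + 1) - Um G M R q m := by
  set U0 := Finset.univ.filter (fun d : D => d ∉ R ∧ (G.dist q (M.f d) < m ∨
    G.dist q (M.f (M.φ d)) < m ∨ G.dist q (M.f (M.φ (M.φ d))) < m)) with hU0
  set U1 := Finset.univ.filter (fun d : D => d ∉ R ∧ (G.dist q (M.f d) < m + 1 ∨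
    G.dist q (M.f (M.φ d)) < m + 1 ∨ G.dist q (M.f (M.φ (M.φ d))) < m + 1)) with hU1
  set P3 := Finset.univ.filter (fun d : D => d ∉ R ∧ m + 1 ≤ G.dist q (M.f d) ∧
      m + 1 ≤ G.dist q (M.f (M.φ d)) ∧ ¬ m + 1 ≤ G.dist q (M.f (M.φ (M.φ d)))) with hP3
  have hsub : U0 ⊆ U1 := by
    intro d hd
    rw [hU0, Finset.mem_filter] at hd
    rw [hU1, Finset.mem_filter]
    refine ⟨hd.1, hd.2.1, ?_⟩
    rcases hd.2.2 with h | h | h
    · exact Or.inl (by omega)
    · exact Or.inr (Or.inl (by omega))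
    · exact Or.inr (Or.inr (by omega))
  have hφR : ∀ d, d ∉ R → M.φ d ∉ R := by
    intro d hd h
    apply hd
    have h1 := (hoff.2 d hd).1
    have h2 : M.φ (M.φ d) ∈ {d | d ∈ R} := hoff.1 _ h
    have h3 : M.φ (M.φ (M.φ d)) ∈ {d | d ∈ R} := hoff.1 _ h2
    rw [h1] at h3
    exact h3
  have hstep : ∀ d, G.Adj (M.f d) (M.f (M.φ d)) := by
    intro d
    rw [← M.tgt]
    exact hadj d
  have hmem3 : ∀ d ∈ P3, d ∉ R ∧ m + 1 ≤ G.dist q (M.f d) ∧
      m + 1 ≤ G.dist q (M.f (M.φ d)) ∧ G.dist q (M.f (M.φ (M.φ d))) = m ∧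
      M.φ (M.φ (M.φ d)) = d := by
    intro d hd
    rw [hP3, Finset.mem_filter] at hd
    obtain ⟨-, h1, h2, h3, h4⟩ := hd
    have h5 := dist_adj hc q (hstep (M.φ d))
    exact ⟨h1, h2, h3, by omega, (hoff.2 d h1).1⟩
  have hinj : Function.Injective M.φ := M.φ.injective
  set P2 := P3.image M.φ with hP2
  set P1 := P2.image M.φ with hP1
  have hc2 : P2.card = P3.card := Finset.card_image_of_injective _ hinj
  have hc1 : P1.card = P3.card := by
    rw [hP1, Finset.card_image_of_injective _ hinj, hc2]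
  have hmem2 : ∀ e ∈ P2, e ∉ R ∧ m + 1 ≤ G.dist q (M.f e) ∧ G.dist q (M.f (M.φ e)) = m ∧
      m + 1 ≤ G.dist q (M.f (M.φ (M.φ e))) := by
    intro e he
    rw [hP2, Finset.mem_image] at he
    obtain ⟨d, hd, rfl⟩ := he
    obtain ⟨h1, h2, h3, h4, h5⟩ := hmem3 d hd
    exact ⟨hφR d h1, h3, h4, by rw [h5]; exact h2⟩
  have hmem1 : ∀ e ∈ P1, e ∉ R ∧ G.dist q (M.f e) = m ∧ m + 1 ≤ G.dist q (M.f (M.φ e)) ∧
      m + 1 ≤ G.dist q (M.f (M.φ (M.φ e))) := by
    intro e he
    rw [hP1, Finset.mem_image] at he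
    obtain ⟨d', hd', rfl⟩ := he
    rw [hP2, Finset.mem_image] at hd'
    obtain ⟨d, hd, rfl⟩ := hd'
    obtain ⟨h1, h2, h3, h4, h5⟩ := hmem3 d hd
    exact ⟨hφR _ (hφR d h1), h4, by rw [h5]; exact h2, by rw [h5]; exact h3⟩
  have hd32 : Disjoint P3 P2 := by
    rw [Finset.disjoint_left]
    intro e h3 h2
    have h4 := (hmem3 e h3).2.2.1
    have h5 := (hmem2 e h2).2.2.1
    omega
  have hd321 : Disjoint (P3 ∪ P2) P1 := by
    rw [Finset.disjoint_left]
    intro e h3 h1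
    have h5 := (hmem1 e h1).2.1
    rw [Finset.mem_union] at h3
    rcases h3 with h3 | h3
    · have h4 := (hmem3 e h3).2.1
      omega
    · have h4 := (hmem2 e h3).2.1
      omega
  have hall : (P3 ∪ P2) ∪ P1 ⊆ U1 \ U0 := by
    intro e he
    rw [Finset.mem_union, Finset.mem_union] at he
    have key : e ∉ R ∧ (G.dist q (M.f e) < m + 1 ∨ G.dist q (M.f (M.φ e)) < m + 1 ∨
        G.dist q (M.f (M.φ (M.φ e))) < m + 1) ∧ ¬ (G.dist q (M.f e) < m ∨
        G.dist q (M.f (M.φ e)) < m ∨ G.dist q (M.f (M.φ (M.φ e))) < m) := by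
      rcases he with (h | h) | h
      · obtain ⟨h1, h2, h3, h4, -⟩ := hmem3 e h
        exact ⟨h1, Or.inr (Or.inr (by omega)), by omega⟩
      · obtain ⟨h1, h2, h3, h4⟩ := hmem2 e h
        exact ⟨h1, Or.inr (Or.inl (by omega)), by omega⟩
      · obtain ⟨h1, h2, h3, h4⟩ := hmem1 e h
        exact ⟨h1, Or.inl (by omega), by omega⟩
    rw [Finset.mem_sdiff, hU1, hU0, Finset.mem_filter, Finset.mem_filter]
    exact ⟨⟨Finset.mem_univ _, key.1, key.2.1⟩, fun h => key.2.2 h.2.2⟩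
  have hcard := Finset.card_le_card hall
  rw [Finset.card_union_of_disjoint hd321, Finset.card_union_of_disjoint hd32, hc2, hc1,
    Finset.card_sdiff_of_subset hsub] at hcard
  have e1 : Um G M R q (m + 1) = U1.card := rfl
  have e0 : Um G M R q m = U0.card := rfl
  rw [e1, e0]
  omega

/-- RESTR with the hypothesis that the labels of an edge are adjacent -/
def RestrAdj : Prop :=
  ∀ (V D : Type) [Fintype D] (G : SimpleGraph V) (M : PMap V D) (W : Set V), M.Planar →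
    (∀ d, G.Adj (M.f d) (M.f (M.ι d))) →
    ∃ (D' : Type) (_ : Fintype D') (M' : PMap V D') (q : D' → D), Function.Injective q ∧
      (∀ d, (∃ x, q x = d) ↔ M.f d ∈ W ∧ M.f (M.ι d) ∈ W) ∧
      (∀ x, M'.f x = M.f (q x) ∧ q (M'.ι x) = M.ι (q x)) ∧
      (∀ x y, M.φ (q x) = q y → M'.φ x = y) ∧ M'.Planar

/-- GROW from RESTR for maps with adjacent labels. -/
theorem grow_of (hQ : QuadNStatement) (hR : RestrAdj) (hF : FillAllStatement) :
    GrowStatement := by
  intro V G C₁ hconn hsc hqi D _ M R w hmin q m hw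
  obtain ⟨hpf, hmn⟩ := hmin
  obtain ⟨W, hW⟩ : ∃ W : Set V, W = {x | m + 1 ≤ G.dist q x} := ⟨_, rfl⟩
  have hWm : ∀ x, x ∈ W ↔ m + 1 ≤ G.dist q x := by intro x; rw [hW]; rfl
  obtain ⟨D', hfin, M', j, jinj, jr, jf, jphi, jpl⟩ := hR V D G M W hpf.planar hpf.adj
  have hoff := hpf.off
  have hRW : ∀ d ∈ R, M.f d ∈ W := by
    intro d hd
    rw [hWm]
    apply hw
    rw [hpf.walk]
    unfold PMap.wk
    exact List.mem_append_left _ (List.mem_map_of_mem hd)
  have hRφ : ∀ d ∈ R, M.φ d ∈ R := fun d hd => hoff.1 d hd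
  have hRι : ∀ d ∈ R, M.f (M.ι d) ∈ W := by
    intro d hd
    rw [M.tgt]
    exact hRW _ (hRφ d hd)
  have hφR : ∀ d, d ∉ R → M.φ d ∉ R := by
    intro d hd h
    apply hd
    have h1 := (hoff.2 d hd).1
    have h3 := hRφ _ (hRφ _ h)
    rw [h1] at h3
    exact h3
  -- lifting
  have hjW : ∀ x, M.f (j x) ∈ W ∧ M.f (M.φ (j x)) ∈ W := by
    intro x
    have h1 := (jr (j x)).1 ⟨x, rfl⟩
    rw [M.tgt] at h1
    exact h1
  have hlift : ∀ x, M.f (M.φ (M.φ (j x))) ∈ W → j (M'.φ x) = M.φ (j x) := by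
    intro x hx
    have h1 : ∃ y, j y = M.φ (j x) := by
      rw [jr]
      refine ⟨(hjW x).2, ?_⟩
      rw [M.tgt]
      exact hx
    obtain ⟨y, hy⟩ := h1
    rw [jphi x y hy.symm, hy]
  -- the big face
  obtain ⟨R', hR'⟩ : ∃ R' : List D', R'.map j = R := by
    have h1 : R ∈ Set.range (List.map j) := by
      rw [Set.range_list_map]
      intro d hd
      exact (jr d).2 ⟨hRW d hd, hRι d hd⟩
    exact h1
  have hmemR : ∀ x, x ∈ R' ↔ j x ∈ R := by
    intro x
    rw [← hR']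
    exact (List.mem_map_of_injective jinj).symm
  have hliftR : ∀ x ∈ R', j (M'.φ x) = M.φ (j x) := by
    intro x hx
    apply hlift
    exact hRW _ (hRφ _ (hRφ _ ((hmemR x).1 hx)))
  have hface : M'.IsFace R' := by
    obtain ⟨f1, f2, f3⟩ := hpf.face
    refine ⟨?_, ?_, ?_⟩
    · rintro rfl
      apply f1
      rw [← hR']
      rfl
    · rw [← hR'] at f2
      exact List.Nodup.of_map _ f2
    · apply List.map_injective_iff.mpr jinj
      rw [List.map_rotate, hR', ← f3, List.map_map, ← hR', List.map_map]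
      apply List.map_congr_left
      intro x hx
      exact hliftR x hx
  -- inner triangles
  have hTri : ∀ x, j x ∉ R → M.f (M.φ (M.φ (j x))) ∈ W →
      j (M'.φ x) = M.φ (j x) ∧ j (M'.φ (M'.φ x)) = M.φ (M.φ (j x)) ∧
      M'.φ (M'.φ (M'.φ x)) = x ∧ M'.φ x ≠ x := by
    intro x hx hx2
    have h1 := hlift x hx2
    have h3 : M.φ (M.φ (M.φ (j x))) = j x := (hoff.2 _ hx).1
    have h2 : j (M'.φ (M'.φ x)) = M.φ (M.φ (j x)) := by
      rw [← h1]
      apply hlift
      rw [h1, h3]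
      exact (hjW x).1
    have h4 : j (M'.φ (M'.φ (M'.φ x))) = j x := by
      rw [← h3, ← h2]
      apply hlift
      rw [h2, h3]
      exact (hjW x).2
    refine ⟨h1, h2, jinj h4, ?_⟩
    intro h5
    have h6 := (hoff.2 _ hx).2
    apply h6
    rw [← h1, h5]
  obtain ⟨B, hB⟩ : ∃ B : Set D', B = {x | j x ∉ R ∧ M.f (M.φ (M.φ (j x))) ∉ W} := ⟨_, rfl⟩
  have hBm : ∀ x, x ∈ B ↔ j x ∉ R ∧ M.f (M.φ (M.φ (j x))) ∉ W := by intro x; rw [hB]; rfl
  have hBφ : ∀ x ∈ B, M'.φ x ∈ B ∧ x ∉ R' := by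
    intro x hx
    obtain ⟨h1, h2⟩ := (hBm x).1 hx
    refine ⟨?_, fun h => h1 ((hmemR x).1 h)⟩
    by_contra hnb
    rw [hBm] at hnb
    by_cases hy : j (M'.φ x) ∈ R
    · have h3 : M'.φ x ∈ R' := (hmemR _).2 hy
      have h4 : M'.φ x ∈ R'.map M'.φ := by
        rw [hface.2.2]
        exact List.mem_rotate.mpr h3
      rw [List.mem_map_of_injective M'.φ.injective] at h4
      exact h1 ((hmemR x).1 h4)
    · have h3 : M.f (M.φ (M.φ (j (M'.φ x)))) ∈ W := by
        by_contra h4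
        exact hnb ⟨hy, h4⟩
      obtain ⟨h4, h5, h6, -⟩ := hTri _ hy h3
      have h7 : M'.φ (M'.φ (M'.φ x)) = x := M'.φ.injective h6
      apply h2
      rw [← h7, h5]
      have h8 : M.φ (M.φ (M.φ (M.φ (j (M'.φ x))))) = M.φ (j (M'.φ x)) := by
        rw [(hoff.2 _ hy).1]
      rw [h8]
      exact (hjW _).2
  have hfill := hF V G C₁ (fun x w hw hl => hQ V G C₁ hsc hqi x w hw hl) D' M' R' B jpl
    (by
      intro x
      rw [(jf x).1, (jf (M'.ι x)).1, (jf x).2]
      exact hpf.adj _)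
    hface hBφ
    (by
      intro x hx hxR
      have h1 : j x ∉ R := fun h => hxR ((hmemR x).2 h)
      have h2 : M.f (M.φ (M.φ (j x))) ∈ W := by
        by_contra h3
        exact hx ((hBm x).2 ⟨h1, h3⟩)
      obtain ⟨-, -, h3, h4⟩ := hTri x h1 h2
      exact ⟨h3, h4⟩)
  obtain ⟨D'', _, M'', R'', hpf'', hcard⟩ := hfill
  have hwk : M'.wk R' = w := by
    rw [hpf.walk]
    unfold PMap.wk
    have h1 : R'.map M'.f = R.map M.f := by
      rw [← hR', List.map_map]
      apply List.map_congr_left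
      intro x _
      exact (jf x).1
    rw [h1]
  rw [hwk] at hpf''
  have hmin2 := hmn D'' M'' R'' hpf''
  -- counting
  have hcnt := count hconn M R hoff hpf.adj q m
  set A1 := Finset.univ.filter (fun d : D => d ∈ R) with hA1
  set A2 := Finset.univ.filter (fun d : D => d ∉ R ∧ m + 1 ≤ G.dist q (M.f d) ∧
      m + 1 ≤ G.dist q (M.f (M.φ d)) ∧ m + 1 ≤ G.dist q (M.f (M.φ (M.φ d)))) with hA2
  set A3 := Finset.univ.filter (fun d : D => d ∉ R ∧ m + 1 ≤ G.dist q (M.f d) ∧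
      m + 1 ≤ G.dist q (M.f (M.φ d)) ∧ ¬ m + 1 ≤ G.dist q (M.f (M.φ (M.φ d)))) with hA3
  set U1 := Finset.univ.filter (fun d : D => d ∉ R ∧ (G.dist q (M.f d) < m + 1 ∨
    G.dist q (M.f (M.φ d)) < m + 1 ∨ G.dist q (M.f (M.φ (M.φ d))) < m + 1)) with hU1
  have hD : Fintype.card D = (A1.card + A2.card) + U1.card := by
    have hd12 : Disjoint A1 A2 := by
      rw [Finset.disjoint_left]
      intro e h1 h2
      rw [hA1, Finset.mem_filter] at h1
      rw [hA2, Finset.mem_filter] at h2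
      exact h2.2.1 h1.2
    have hd12U : Disjoint (A1 ∪ A2) U1 := by
      rw [Finset.disjoint_left]
      intro e h1 h2
      rw [hU1, Finset.mem_filter] at h2
      rw [Finset.mem_union, hA1, hA2, Finset.mem_filter, Finset.mem_filter] at h1
      rcases h1 with h1 | h1
      · exact h2.2.1 h1.2
      · obtain ⟨-, -, h3, h4, h5⟩ := h1
        rcases h2.2.2 with h6 | h6 | h6 <;> omega
    have hu : (A1 ∪ A2) ∪ U1 = Finset.univ := by
      ext e
      rw [Finset.mem_union, Finset.mem_union, hA1, hA2, hU1, Finset.mem_filter,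
        Finset.mem_filter, Finset.mem_filter]
      simp only [Finset.mem_univ, true_and, iff_true]
      by_cases he : e ∈ R
      · exact Or.inl (Or.inl he)
      · by_cases h1 : m + 1 ≤ G.dist q (M.f e) ∧
          m + 1 ≤ G.dist q (M.f (M.φ e)) ∧ m + 1 ≤ G.dist q (M.f (M.φ (M.φ e)))
        · exact Or.inl (Or.inr ⟨he, h1⟩)
        · refine Or.inr ⟨he, ?_⟩
          by_contra h2
          apply h1
          push Not at h2
          exact h2
    rw [← Finset.card_univ, ← hu, Finset.card_union_of_disjoint hd12U,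
      Finset.card_union_of_disjoint hd12]
  have hD' : Fintype.card D' = (A1.card + A2.card) + A3.card := by
    have hd12 : Disjoint A1 A2 := by
      rw [Finset.disjoint_left]
      intro e h1 h2
      rw [hA1, Finset.mem_filter] at h1
      rw [hA2, Finset.mem_filter] at h2
      exact h2.2.1 h1.2
    have hd123 : Disjoint (A1 ∪ A2) A3 := by
      rw [Finset.disjoint_left]
      intro e h1 h2
      rw [hA3, Finset.mem_filter] at h2
      rw [Finset.mem_union, hA1, hA2, Finset.mem_filter, Finset.mem_filter] at h1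
      rcases h1 with h1 | h1
      · exact h2.2.1 h1.2
      · exact h2.2.2.2.2 h1.2.2.2.2
    have hu : (A1 ∪ A2) ∪ A3 = Finset.univ.image j := by
      ext e
      rw [Finset.mem_union, Finset.mem_union, hA1, hA2, hA3, Finset.mem_filter,
        Finset.mem_filter, Finset.mem_filter, Finset.mem_image]
      simp only [Finset.mem_univ, true_and]
      rw [jr e, M.tgt, hWm, hWm]
      constructor
      · rintro ((h1 | h1) | h1)
        · have h2 := hRW e h1
          have h3 := hRW _ (hRφ e h1)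
          rw [hWm] at h2 h3
          exact ⟨h2, h3⟩
        · exact ⟨h1.2.1, h1.2.2.1⟩
        · exact ⟨h1.2.1, h1.2.2.1⟩
      · rintro ⟨h1, h2⟩
        by_cases he : e ∈ R
        · exact Or.inl (Or.inl he)
        · by_cases h3 : m + 1 ≤ G.dist q (M.f (M.φ (M.φ e)))
          · exact Or.inl (Or.inr ⟨he, h1, h2, h3⟩)
          · exact Or.inr ⟨he, h1, h2, h3⟩
    have h1 : (Finset.univ.image j).card = Fintype.card D' := by
      rw [Finset.card_image_of_injective _ jinj, Finset.card_univ]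
    rw [← h1, ← hu, Finset.card_union_of_disjoint hd123, Finset.card_union_of_disjoint hd12]
  have hBc : Nat.card B = A3.card := by
    have h1 : A3 = (Finset.univ.filter (fun x : D' => x ∈ B)).image j := by
      ext e
      rw [hA3, Finset.mem_filter, Finset.mem_image]
      simp only [Finset.mem_univ, true_and, Finset.mem_filter]
      constructor
      · rintro ⟨h1, h2, h3, h4⟩
        obtain ⟨x, hx⟩ := (jr e).2 ⟨(hWm _).2 h2, by rw [M.tgt]; exact (hWm _).2 h3⟩
        refine ⟨x, (hBm x).2 ?_, hx⟩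
        rw [hx]
        exact ⟨h1, fun h => h4 ((hWm _).1 h)⟩
      · rintro ⟨x, hx, rfl⟩
        obtain ⟨h1, h2⟩ := (hBm x).1 hx
        exact ⟨h1, (hWm _).1 (hjW x).1, (hWm _).1 (hjW x).2, fun h => h2 ((hWm _).2 h)⟩
    rw [h1, Finset.card_image_of_injective _ jinj, Nat.card_eq_fintype_card,
      Fintype.card_subtype]
  rw [hBc] at hcard
  have e1 : Um G M R q (m + 1) = U1.card := rfl
  obtain ⟨b, hb⟩ : ∃ b, b = A3.card := ⟨_, rfl⟩
  rw [← hb] at hcnt hcard hD'
  have h7 : U1.card ≤ 3 * (C₁ * b ^ 2) := by omega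
  obtain ⟨Δ, hΔ⟩ : ∃ Δ, Δ = Um G M R q (m + 1) - Um G M R q m := ⟨_, rfl⟩
  rw [← hΔ] at hcnt ⊢
  rw [e1]
  calc 3 * U1.card ≤ 3 * (3 * (C₁ * b ^ 2)) := Nat.mul_le_mul_left 3 h7
    _ = C₁ * (3 * b) ^ 2 := by ring
    _ ≤ C₁ * Δ ^ 2 := Nat.mul_le_mul_left _ (Nat.pow_le_pow_left hcnt 2)

/-- Module GROW. -/
theorem grow_st (hQ : QuadNStatement) (hR : RestrStatement) (hF : FillAllStatement) :
    GrowStatement :=
  grow_of hQ (fun V D _ _ M W hp _ => hR V D M W hp) hF

end MSG.F38
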